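import Pool.Agent.helper64.OT.SpecD

/-! # Project OT (MP_f6e9a2_nt), row MAJ: the Fejer kernel is at least `1 / 2` near `0` -/

set_option autoImplicit false

namespace Pool.Agent.OT

open Finset

theorem MAJ_ps {p : ℕ} [Fact p.Prime] (s : ℕ) (x : ZMod p) :
    ps ((s : ZMod p) * x) = Complex.exp (((2 * Real.pi * (s * x.val) / p : ℝ) : ℂ) * Complex.I) := by
  have h : ((s : ZMod p) * x) = (((s * x.val : ℕ) : ℤ) : ZMod p) := by
    rw [Int.cast_natCast, Nat.cast_mul, ZMod.natCast_zmod_val]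
  unfold ps
  rw [h, ZMod.stdAddChar_coe]
  congr 1
  push_cast
  ring

theorem MAJ : MAJ_stmt := by
  intro p hp T x hT h8
  have hp0 : (0 : ℝ) < p := by exact_mod_cast hp.out.pos
  have hT0 : (0 : ℝ) < T := by exact_mod_cast hT
  have h8' : (8 : ℝ) * T * x.val ≤ p := by exact_mod_cast h8
  have hre : ∀ s ∈ range T, Real.sqrt 2 / 2 ≤ (ps ((s : ZMod p) * x)).re := by
    intro s hs
    have hsT : (s : ℝ) ≤ T := by exact_mod_cast (mem_range.1 hs).le
    rw [MAJ_ps, Complex.exp_ofReal_mul_I_re, ← Real.cos_pi_div_four]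
    have h0 : (0 : ℝ) ≤ 2 * Real.pi * (s * x.val) / p := by positivity
    have h1 : 2 * Real.pi * (s * x.val) / p ≤ Real.pi / 4 := by
      rw [div_le_iff₀ hp0]
      have h2 : (s : ℝ) * x.val ≤ T * x.val := mul_le_mul_of_nonneg_right hsT (Nat.cast_nonneg _)
      have h3 := Real.pi_pos
      nlinarith
    exact Real.cos_le_cos_of_nonneg_of_le_pi h0 (by linarith [Real.pi_pos]) h1
  have hsum : (T : ℝ) * (Real.sqrt 2 / 2) ≤ (∑ s ∈ range T, ps ((s : ZMod p) * x)).re := by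
    rw [Complex.re_sum]
    have := Finset.card_nsmul_le_sum (range T) (fun s => (ps ((s : ZMod p) * x)).re) _ hre
    rwa [card_range, nsmul_eq_mul] at this
  have hn : (T : ℝ) * (Real.sqrt 2 / 2) ≤ ‖∑ s ∈ range T, ps ((s : ZMod p) * x)‖ :=
    hsum.trans (Complex.re_le_norm _)
  have hsq : ((T : ℝ) * (Real.sqrt 2 / 2)) ^ 2 ≤ ‖∑ s ∈ range T, ps ((s : ZMod p) * x)‖ ^ 2 :=
    pow_le_pow_left₀ (by positivity) hn 2
  unfold psi
  rw [le_div_iff₀ (by positivity)]
  refine le_trans (le_of_eq ?_) hsq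
  rw [mul_pow, div_pow, Real.sq_sqrt (by norm_num)]
  ring

end Pool.Agent.OT
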